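import Pool.Agent.Results.MP_6dc9d1_nt.FixedNumberAllLayers

/-!
# Central order zero over all the layers of the cyclotomic `ℤ₃`-extension, for quadratic twists with
# prescribed local components and a fixed number of ramified primes

`E = X_0(14)` is an elliptic curve without complex multiplication.  For a number field `K` let `π_K` be the
automorphic representation of `GL₂(𝔸_K)` attached to `E` over `K` (base change), and for an integer `D`
let `χ_{D,K}` be the quadratic character of `K(√D)/K`; `π_K ⊗ χ_{D,K}` belongs to the twist `E_D` over `K`.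

We fix a finite set of primes (the prime divisors of `q`, prime to `42`), a residue class `c` modulo `q`
and a class `e` (`2`, `4`, `5` or `7`) modulo `9`, and three numbers `k`, `a`, `b`, `b` even, `a + b ≥ 1`.
The family consists of the squarefree `D = 1 mod 4`, squares modulo `7`, with exactly `k`, `a`, `b` prime
divisors which are `1`, `3`, `5` modulo `8`, those `1` modulo `8` split in `ℚ(√-7)` and the others
inert, all of them in the classes `c` modulo `q` and `e` modulo `9`.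

Theorem.
(1) All the `D` of the family have the same sign and the same class modulo squares in `ℚ_ℓ` for `ℓ = 2`, `3`,
`7` and `ℓ ∣ q`: over each number field `K` the characters `χ_{D,K}` have the same components at all the
archimedean places and at all the places above `42 q`.  The number of the `D` of the family with
`|D| ≤ X` has the order of magnitude `X (log log X)^(k + a + b - 1) / log X`, and the proportion of those
for which over ALL the layers `K` of the cyclotomic `ℤ₃`-extension of `ℚ` the central order of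
`π_K ⊗ χ_{D,K}` is zero, the rank of `E_D(K)` is zero and `Ш(E_D/K)[2] = 0`, tends to
`∏_{i < (k + 1) / 2} (1 - 2^{-(2 i + 1)})`.
(2) All unramified components at the `ℓ ∣ q` and at `3` and both signs occur: for each `u` prime to `q`, all
signs `s` and `w` and each `k` of the parity opposite to the one of `s` (odd for `s = 1`, even for
`s = -1`) there are `c`, `e`, `a`, `b` such that the `D` of the family have the sign `s` and the class of
`u` at the `ℓ ∣ q` and the class of `w` at `3`.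

The law is the one of `MP_6dc9d1_nt.FixedNumberAllLayers` (helper291; criterion: matrices of quadratic
symbols, the library of the projects `Y687`, `Y682`; counting: `Pool/Agent/V11291/FK`).
-/

set_option autoImplicit false

open Finset NumberField Filter Topology

namespace Pool.Agent.Results.MP_50bb2e_nt.AllLayersLocalConditions

open Pool.Agent.Results.MP_6dc9d1_nt.FixedNumberAllLayers (Adm AllLayers Family Rich Law proportion
  number Split Inert rich_iff dn_mono Nin)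

/-- the integers `D` and `D'` differ by a nonzero square in the field `ℚ_l`: the local components at `l` of
the quadratic characters of `ℚ(√D)` and of `ℚ(√D')` are equal, and so are those of `K(√D)` and of
`K(√D')` at the places above `l` for any number field `K` -/
def SameAt (l : ℕ) (D D' : ℤ) : Prop :=
  ∃ hl : l.Prime, ∃ z : @Padic l ⟨hl⟩, z ≠ 0 ∧ (D : @Padic l ⟨hl⟩) * (D' : @Padic l ⟨hl⟩) = z ^ 2

/-- the numbers which are `c` modulo `q` and `e` modulo `9` -/
def Classes (q c e : ℕ) : Set ℕ := {p | p % q = c % q ∧ p % 9 = e}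

/-- the data: `q` prime to `42`, `c` prime to `q`, `e` one of `2`, `4`, `5`, `7`, `b` even and `a + b ≥ 1` -/
def Data (q c e a b : ℕ) : Prop :=
  Nat.Coprime q 42 ∧ Nat.Coprime c q ∧ (e = 2 ∨ e = 4 ∨ e = 5 ∨ e = 7) ∧ Even b ∧ 1 ≤ a + b

section padic

open Polynomial

lemma sq_near_one {p : ℕ} [hp : Fact p.Prime] (e : ℤ_[p]) (he : ‖e‖ < ‖(2 : ℤ_[p])‖ ^ 2) :
    ∃ z : ℤ_[p], z ^ 2 = 1 + e := by
  have h := hensels_lemma (p := p) (R := ℤ_[p]) (F := X ^ 2 - C (1 + e)) (a := 1) (by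
    simp only [map_sub, map_pow, aeval_X, aeval_C, derivative_X_pow, derivative_C, sub_zero,
      map_mul, map_natCast, Algebra.algebraMap_self, RingHom.id_apply]
    norm_num
    exact he)
  obtain ⟨z, hz, -⟩ := h
  refine ⟨z, ?_⟩
  simp only [map_sub, map_pow, aeval_X, aeval_C, Algebra.algebraMap_self, RingHom.id_apply] at hz
  linear_combination hz

lemma odd_sq {l : ℕ} [hl : Fact l.Prime] (h2 : l ≠ 2) {n x : ℤ} (hx : ¬ (l : ℤ) ∣ x)
    (h : (l : ℤ) ∣ n - x ^ 2) : ∃ z : ℚ_[l], z ≠ 0 ∧ (n : ℚ_[l]) = z ^ 2 := by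
  have hxn : ‖(x : ℤ_[l])‖ = 1 := by
    have h1 : ¬ ‖(x : ℤ_[l])‖ < 1 := fun h => hx (PadicInt.norm_int_lt_one_iff_dvd x |>.1 h)
    exact le_antisymm (PadicInt.norm_le_one _) (not_lt.1 h1)
  have hxu : IsUnit (x : ℤ_[l]) := PadicInt.isUnit_iff.2 hxn
  obtain ⟨u, hu⟩ := hxu
  have h2n : ‖(2 : ℤ_[l])‖ = 1 := by
    have h1 : ¬ ‖((2 : ℤ) : ℤ_[l])‖ < 1 := fun h => by
      have h3 : (l : ℤ) ∣ 2 := (PadicInt.norm_int_lt_one_iff_dvd 2).1 h
      have h4 : l ∣ 2 := by exact_mod_cast h3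
      exact h2 ((Nat.prime_dvd_prime_iff_eq hl.out Nat.prime_two).1 h4)
    have h3 := le_antisymm (PadicInt.norm_le_one _) (not_lt.1 h1)
    exact_mod_cast h3
  have hd : ‖((n - x ^ 2 : ℤ) : ℤ_[l])‖ < 1 := (PadicInt.norm_int_lt_one_iff_dvd _).2 h
  obtain ⟨z, hz⟩ := sq_near_one (p := l) (((n - x ^ 2 : ℤ) : ℤ_[l]) * (↑u⁻¹ : ℤ_[l]) ^ 2) (by
    rw [h2n, one_pow, norm_mul]
    have h5 : ‖(↑u⁻¹ : ℤ_[l]) ^ 2‖ ≤ 1 := PadicInt.norm_le_one _
    calc _ ≤ ‖((n - x ^ 2 : ℤ) : ℤ_[l])‖ * 1 := mul_le_mul_of_nonneg_left h5 (norm_nonneg _)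
      _ < 1 := by rw [mul_one]; exact hd)
  have hn : (n : ℤ_[l]) = ((x : ℤ_[l]) * z) ^ 2 := by
    rw [mul_pow, hz, ← hu]
    have h6 : (u : ℤ_[l]) * (↑u⁻¹ : ℤ_[l]) = 1 := u.mul_inv
    push_cast
    rw [← hu]
    linear_combination (-((n : ℤ_[l]) - (u : ℤ_[l]) ^ 2) * ((u : ℤ_[l]) * (↑u⁻¹ : ℤ_[l]) + 1)) * h6
  have hn0 : n ≠ 0 := by
    rintro rfl
    rw [zero_sub, Int.dvd_neg] at h
    exact hx ((Nat.prime_iff_prime_int.1 hl.out).dvd_of_dvd_pow h)
  have hn' : (n : ℚ_[l]) = (((x : ℤ_[l]) * z : ℤ_[l]) : ℚ_[l]) ^ 2 := by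
    have := congrArg (fun t : ℤ_[l] => (t : ℚ_[l])) hn
    push_cast at this ⊢
    exact this
  refine ⟨(((x : ℤ_[l]) * z : ℤ_[l]) : ℚ_[l]), ?_, hn'⟩
  intro h0
  rw [h0] at hn'
  have : (n : ℚ_[l]) = 0 := by rw [hn']; ring
  exact hn0 (by exact_mod_cast this)

lemma two_sq [Fact (Nat.Prime 2)] {n : ℤ} (h : (8 : ℤ) ∣ n - 1) :
    ∃ z : ℚ_[2], z ≠ 0 ∧ (n : ℚ_[2]) = z ^ 2 := by
  have h1 : ‖((n - 1 : ℤ) : ℤ_[2])‖ ≤ ((2 : ℕ) : ℝ) ^ (-((3 : ℕ) : ℤ)) :=
    PadicInt.norm_int_le_pow_iff_dvd.2 (by norm_num; exact h)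
  have h2 : ‖(2 : ℤ_[2])‖ = (2 : ℝ)⁻¹ := by
    have := PadicInt.norm_p (p := 2)
    exact_mod_cast this
  obtain ⟨z, hz⟩ := sq_near_one (p := 2) ((n - 1 : ℤ) : ℤ_[2]) (by
    rw [h2]
    refine lt_of_le_of_lt h1 ?_
    norm_num)
  have hn : (n : ℤ_[2]) = z ^ 2 := by
    rw [hz]
    push_cast
    ring
  have hn' : (n : ℚ_[2]) = (z : ℚ_[2]) ^ 2 := by
    have := congrArg (fun t : ℤ_[2] => (t : ℚ_[2])) hn
    push_cast at this ⊢
    exact this
  have hn0 : n ≠ 0 := by
    rintro rfl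
    norm_num at h
  refine ⟨(z : ℚ_[2]), ?_, hn'⟩
  intro h0
  rw [h0] at hn'
  have : (n : ℚ_[2]) = 0 := by rw [hn']; ring
  exact hn0 (by exact_mod_cast this)

end padic

lemma sameAt_odd {l : ℕ} (hl : l.Prime) (h2 : l ≠ 2) {D D' x : ℤ} (hx : ¬ (l : ℤ) ∣ x)
    (h : (l : ℤ) ∣ D * D' - x ^ 2) : SameAt l D D' := by
  have := Fact.mk hl
  obtain ⟨z, hz, h1⟩ := odd_sq (l := l) h2 hx h
  refine ⟨hl, z, hz, ?_⟩
  rw [← h1]
  push_cast
  rfl

lemma sameAt_two {D D' : ℤ} (h : (8 : ℤ) ∣ D * D' - 1) : SameAt 2 D D' := by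
  have := Fact.mk Nat.prime_two
  obtain ⟨z, hz, h1⟩ := two_sq h
  refine ⟨Nat.prime_two, z, hz, ?_⟩
  rw [← h1]
  push_cast
  rfl

/-- the prime factors are `1`, `3` or `5` modulo `8` -/
lemma mod8 {D : ℤ} (hD : Adm D) {p : ℕ} (hp : p ∈ D.natAbs.primeFactors) :
    p % 8 = 1 ∨ p % 8 = 3 ∨ p % 8 = 5 := by
  rcases (hD.2.2.2 p (Nat.prime_of_mem_primeFactors hp)
    (Int.natCast_dvd.2 (Nat.dvd_of_mem_primeFactors hp))).1 with h | h
  · exact Or.inl h.2.1
  · exact Or.inr h.2.1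

lemma sign_eq {D : ℤ} (hD : Adm D) {a : ℕ} (ha : number 3 D = a) :
    (0 < D ↔ Even a) ∧ D = (-1) ^ a * (D.natAbs : ℤ) := by
  have hA := ((Pool.Agent.Results.MP_f50388_nt.LayersMultiquadraticLaw.adm_iff D).1 hD).1
  have h1 := Pool.Agent.Y703.CQ.sign_iff hA
  have h2 : 0 < D ↔ Even a := by
    rw [h1, ← ha, Nat.even_iff]
    rfl
  refine ⟨h2, ?_⟩
  rcases Nat.even_or_odd a with h | h
  · rw [h.neg_one_pow, one_mul, Int.natAbs_of_nonneg (h2.2 h).le]
  · have h3 : D ≤ 0 := not_lt.1 fun h' => (Nat.not_even_iff_odd.2 h) (h2.1 h')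
    rw [h.neg_one_pow, neg_one_mul, Int.ofNat_natAbs_of_nonpos h3, neg_neg]

lemma cast_eq {D : ℤ} (hD : Adm D) {a : ℕ} (ha : number 3 D = a) (m : ℕ) :
    (D : ZMod m) = (-1) ^ a * (D.natAbs : ZMod m) := by
  have h := congrArg (Int.cast : ℤ → ZMod m) (sign_eq hD ha).2
  rw [Int.cast_mul, Int.cast_natCast, Int.cast_pow, Int.cast_neg, Int.cast_one] at h
  exact h

lemma card_eq {D : ℤ} (hD : Adm D) :
    D.natAbs.primeFactors.card = number 1 D + number 3 D + number 5 D := by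
  have h : D.natAbs.primeFactors = (D.natAbs.primeFactors.filter fun p => p % 8 = 1) ∪
      (D.natAbs.primeFactors.filter fun p => p % 8 = 3) ∪
      (D.natAbs.primeFactors.filter fun p => p % 8 = 5) := by
    ext p
    simp only [mem_union, mem_filter]
    constructor
    · intro hp
      rcases mod8 hD hp with h | h | h
      · exact Or.inl (Or.inl ⟨hp, h⟩)
      · exact Or.inl (Or.inr ⟨hp, h⟩)
      · exact Or.inr ⟨hp, h⟩
    · rintro ((h | h) | h) <;> exact h.1
  unfold number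
  conv_lhs => rw [h]
  rw [card_union_of_disjoint, card_union_of_disjoint]
  · rw [disjoint_filter]
    intro p _ h1 h2
    omega
  · rw [disjoint_union_left, disjoint_filter, disjoint_filter]
    exact ⟨fun p _ h1 h2 => by omega, fun p _ h1 h2 => by omega⟩

/-- the residue of `D` modulo `m` if all the prime factors are `c` modulo `m` -/
lemma residue {D : ℤ} (hD : Adm D) {m c k a b : ℕ} (h : ∀ p : ℕ, p.Prime → (p : ℤ) ∣ D → p % m = c % m)
    (hk : number 1 D = k) (ha : number 3 D = a) (hb : number 5 D = b) :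
    (m : ℤ) ∣ D - (-1) ^ a * (c : ℤ) ^ (k + a + b) := by
  have h1 : ∏ p ∈ D.natAbs.primeFactors, p = D.natAbs :=
    Nat.prod_primeFactors_of_squarefree (Int.squarefree_natAbs.2 hD.1)
  have h2 : (D.natAbs : ZMod m) = (c : ZMod m) ^ (k + a + b) := by
    rw [← h1, Nat.cast_prod, ← hk, ← ha, ← hb, ← card_eq hD, ← prod_const]
    refine prod_congr rfl fun p hp => ?_
    exact (ZMod.natCast_eq_natCast_iff' p c m).2 (h p (Nat.prime_of_mem_primeFactors hp)
      (Int.natCast_dvd.2 (Nat.dvd_of_mem_primeFactors hp)))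
  refine (ZMod.intCast_eq_intCast_iff_dvd_sub _ _ m).1 ?_
  rw [cast_eq hD ha m, h2]
  push_cast
  rfl

/-- the residue of `D` modulo `8` -/
lemma residue8 {D : ℤ} (hD : Adm D) {a b : ℕ} (ha : number 3 D = a) (hb : number 5 D = b)
    (hb' : Even b) : (8 : ℤ) ∣ D * 5 ^ a - 1 := by
  have h1 : ∏ p ∈ D.natAbs.primeFactors, p = D.natAbs :=
    Nat.prod_primeFactors_of_squarefree (Int.squarefree_natAbs.2 hD.1)
  have h : ∏ p ∈ D.natAbs.primeFactors, (p : ZMod 8) =
      (∏ p ∈ D.natAbs.primeFactors, if p % 8 = 3 then (3 : ZMod 8) else 1) *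
        ∏ p ∈ D.natAbs.primeFactors, if p % 8 = 5 then (5 : ZMod 8) else 1 := by
    rw [← prod_mul_distrib]
    refine prod_congr rfl fun p hp => ?_
    have h3 : (p : ZMod 8) = ((p % 8 : ℕ) : ZMod 8) := (ZMod.natCast_mod p 8).symm
    rw [h3]
    rcases mod8 hD hp with h4 | h4 | h4 <;> rw [h4] <;> decide
  have h2 : (D.natAbs : ZMod 8) = 3 ^ a * 5 ^ b := by
    conv_lhs => rw [← h1, Nat.cast_prod, h]
    rw [← prod_filter, ← prod_filter, prod_const, prod_const, ← ha, ← hb]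
    rfl
  obtain ⟨j, rfl⟩ := hb'
  have h5 : ((1 : ℤ) : ZMod 8) = ((D * 5 ^ a : ℤ) : ZMod 8) := by
    rw [Int.cast_mul, cast_eq hD ha 8, h2]
    push_cast
    have e1 : (3 : ZMod 8) ^ a * 5 ^ (j + j) * 5 ^ a * (-1) ^ a = (-15) ^ a * (25) ^ j := by
      rw [pow_add, show (-15 : ZMod 8) = 3 * 5 * (-1) by decide, show (25 : ZMod 8) = 5 * 5 by decide,
        mul_pow, mul_pow, mul_pow]
      ring
    have e2 : (-1 : ZMod 8) ^ a * (3 ^ a * 5 ^ (j + j)) * 5 ^ a =
        (3 : ZMod 8) ^ a * 5 ^ (j + j) * 5 ^ a * (-1) ^ a := by ring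
    rw [e2, e1, show (-15 : ZMod 8) = 1 by decide, show (25 : ZMod 8) = 1 by decide, one_pow, one_pow,
      one_mul]
  exact (ZMod.intCast_eq_intCast_iff_dvd_sub _ _ 8).1 h5

lemma seven {D : ℤ} (hD : Adm D) : SameAt 7 D 1 := by
  have key : ∀ x : ℤ, ¬ (7 : ℤ) ∣ x → (7 : ℤ) ∣ D * 1 - x ^ 2 → SameAt 7 D 1 := fun x h1 h2 =>
    sameAt_odd (by norm_num) (by norm_num) (by exact_mod_cast h1) (by exact_mod_cast h2)
  rcases hD.2.2.1 with h | h | h
  · exact key 1 (by norm_num) (by omega)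
  · exact key 3 (by norm_num) (by omega)
  · exact key 2 (by norm_num) (by omega)

/-- if `D = u` modulo a multiple of the odd prime `l`, `u` prime to `l`, then they are in the same class -/
lemma same_mod {D u v : ℤ} {l m : ℕ} (hl : l.Prime) (h2 : l ≠ 2) (hm : l ∣ m) (hu : ¬ (l : ℤ) ∣ u)
    (h : (m : ℤ) ∣ D - u) {x : ℤ} (hx : u * v = x ^ 2) (hv : ¬ (l : ℤ) ∣ v) : SameAt l D v := by
  have h3 : (l : ℤ) ∣ D - u := (Int.natCast_dvd_natCast.2 hm).trans h
  have hp := Nat.prime_iff_prime_int.1 hl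
  refine sameAt_odd hl h2 (x := x) (fun h4 => ?_) ?_
  · have h5 : (l : ℤ) ∣ u * v := by
      rw [hx]
      exact dvd_pow h4 two_ne_zero
    rcases hp.dvd_or_dvd h5 with h6 | h6
    · exact hu h6
    · exact hv h6
  · rw [← hx, ← sub_mul]
    exact Dvd.dvd.mul_right h3 v

open Pool.Agent.V11291.FK (Nf Dn Dc Cp) in
lemma rich {q c e : ℕ} (hq : Nat.Coprime q 42) (hc : Nat.Coprime c q)
    (he : e = 2 ∨ e = 4 ∨ e = 5 ∨ e = 7) (k a b : ℕ) : Rich (Classes q c e) k a b := by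
  have hq3 : Nat.Coprime q 9 := by
    have h1 : Nat.Coprime q 3 := hq.coprime_dvd_right (by norm_num)
    exact Nat.Coprime.pow_right 2 h1
  have hq14 : Nat.Coprime q 14 := hq.coprime_dvd_right (by norm_num)
  obtain ⟨z, hz1, hz2⟩ := Nat.chineseRemainder hq3 c e
  have hz : Nat.Coprime z (q * 9) := by
    refine Nat.Coprime.mul_right ?_ ?_
    · unfold Nat.Coprime
      rw [hz1.gcd_eq]
      exact hc
    · unfold Nat.Coprime
      rw [hz2.gcd_eq]
      rcases he with h | h | h | h <;> rw [h] <;> norm_num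
  have h := Pool.Agent.V11291.FK.dc_class (q := q * 9) (c := z)
    (Nat.Coprime.mul_left hq14 (by norm_num)) hz k a b
  have key : ∀ p : ℕ, p % (q * 9) = z % (q * 9) → p ∈ Classes q c e ∧ Nin p := by
    intro p hp
    have h1 : p ≡ z [MOD q * 9] := hp
    have h2 : p ≡ e [MOD 9] := (h1.of_mul_left q).trans hz2
    have h3 : p % 9 = e := by
      have h4 : p % 9 = e % 9 := h2
      rcases he with h | h | h | h <;> rw [h] at h4 ⊢ <;> omega
    refine ⟨⟨(h1.of_mul_right 9).trans hz1, h3⟩, ?_⟩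
    unfold Nin
    rw [h3]
    exact he
  rw [rich_iff]
  exact ⟨fun hk => dn_mono (fun p hp => ⟨key p hp.1, hp.2⟩) (h.1 hk),
    fun hk => dn_mono (fun p hp => ⟨key p hp.1, hp.2⟩) (h.2.1 hk),
    fun hk => dn_mono (fun p hp => ⟨key p hp.1, hp.2⟩) (h.2.2 hk)⟩

/-- the local components for the family -/
lemma components {q c e k a b : ℕ} (hd : Data q c e a b) {D : ℤ}
    (hD : Family (Classes q c e) k a b D) : (0 < D ↔ Even a) ∧ SameAt 2 D (5 ^ a) ∧ SameAt 7 D 1 ∧
      SameAt 3 D ((-1) ^ a * (e : ℤ) ^ (k + a + b)) ∧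
      ∀ l : ℕ, l.Prime → l ∣ q → SameAt l D ((-1) ^ a * (c : ℤ) ^ (k + a + b)) := by
  obtain ⟨hA, hS, hk, ha, hb⟩ := hD
  obtain ⟨hq, hc, he, hb', hab⟩ := hd
  refine ⟨(sign_eq hA ha).1, sameAt_two (residue8 hA ha hb hb'), seven hA, ?_, fun l hl hlq => ?_⟩
  · have h3 : ¬ ((3 : ℕ) : ℤ) ∣ (-1) ^ a * (e : ℤ) ^ (k + a + b) := by
      intro h
      have hp3 : Prime ((3 : ℕ) : ℤ) := Nat.prime_iff_prime_int.1 Nat.prime_three
      rcases hp3.dvd_or_dvd h with h | h
      · have h4 := hp3.dvd_of_dvd_pow h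
        norm_num at h4
      · have h4 : 3 ∣ e := Int.natCast_dvd_natCast.1 (hp3.dvd_of_dvd_pow h)
        rcases he with h | h | h | h <;> rw [h] at h4 <;> norm_num at h4
    refine same_mod Nat.prime_three (by norm_num) (m := 9) (by norm_num) h3
      (residue hA (fun p hp hpd => ?_) hk ha hb) (x := (-1) ^ a * (e : ℤ) ^ (k + a + b))
      (by ring) h3
    rw [(hS p hp hpd).2]
    rcases he with h | h | h | h <;> rw [h]
  · have hl2 : l ≠ 2 := by
      rintro rfl
      have := Nat.Coprime.coprime_dvd_left hlq hq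
      norm_num at this
    have h3 : ¬ (l : ℤ) ∣ (-1) ^ a * (c : ℤ) ^ (k + a + b) := by
      intro h
      have hp := Nat.prime_iff_prime_int.1 hl
      rcases hp.dvd_or_dvd h with h | h
      · have h4 := hp.dvd_of_dvd_pow h
        rw [Int.dvd_neg] at h4
        exact hp.not_dvd_one h4
      · have h4 : l ∣ c := Int.natCast_dvd_natCast.1 (hp.dvd_of_dvd_pow h)
        exact hl.one_lt.ne' (Nat.dvd_one.1 (hc ▸ Nat.dvd_gcd h4 hlq))
    exact same_mod hl hl2 hlq h3 (residue hA (fun p hp hpd => (hS p hp hpd).1) hk ha hb)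
      (x := (-1) ^ a * (c : ℤ) ^ (k + a + b)) (by ring) h3

/-- all unramified components and all signs occur -/
lemma prescribe {q : ℕ} (hq : Nat.Coprime q 42) {u s w : ℤ} (hu : IsCoprime u (q : ℤ))
    (hs : s = 1 ∨ s = -1) (hw : w = 1 ∨ w = -1) {k : ℕ} (hk : Odd k ↔ s = 1) :
    ∃ c e a b : ℕ, Data q c e a b ∧ ∀ D : ℤ, Family (Classes q c e) k a b D →
      0 < s * D ∧ SameAt 3 D w ∧ ∀ l : ℕ, l.Prime → l ∣ q → SameAt l D u := by
  have hq0 : q ≠ 0 := by
    rintro rfl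
    norm_num at hq
  -- the number `a`
  obtain ⟨a, ha1, ha2, hn⟩ : ∃ a : ℕ, 1 ≤ a ∧ (-1 : ℤ) ^ a = s ∧ Odd (k + a) := by
    rcases hs with h | h
    · exact ⟨2, by norm_num, by rw [h]; norm_num, (hk.2 h).add_even (by decide)⟩
    · have h1 : Even k := by
        rw [← Nat.not_odd_iff_even, hk, h]
        norm_num
      exact ⟨1, le_rfl, by rw [h]; norm_num, h1.add_odd odd_one⟩
  have hss : s * s = 1 := by rcases hs with h | h <;> rw [h] <;> norm_num
  -- the class modulo `q`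
  obtain ⟨c, hc⟩ : ∃ c : ℕ, (q : ℤ) ∣ (c : ℤ) - s * u := by
    refine ⟨((s * u) % q).toNat, ?_⟩
    rw [Int.toNat_of_nonneg (Int.emod_nonneg _ (by exact_mod_cast hq0))]
    exact ⟨-(s * u / q), by rw [Int.emod_def]; ring⟩
  have hcq : Nat.Coprime c q := by
    have h1 : IsCoprime (s * u) (q : ℤ) := by
      refine IsCoprime.mul_left ?_ hu
      rcases hs with h | h
      · rw [h]
        exact isCoprime_one_left
      · rw [h]
        exact (isCoprime_one_left).neg_left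
    have h2 : IsCoprime (c : ℤ) (q : ℤ) := by
      obtain ⟨y, hy⟩ := hc
      have h3 : (c : ℤ) = s * u + q * y := by linear_combination hy
      rw [h3]
      exact (IsCoprime.add_mul_left_left_iff).2 h1
    exact Nat.isCoprime_iff_coprime.1 h2
  -- the class modulo `9`
  obtain ⟨e, he, hes⟩ : ∃ e : ℕ, (e = 2 ∨ e = 4 ∨ e = 5 ∨ e = 7) ∧ (3 : ℤ) ∣ (e : ℤ) - s * w := by
    rcases hs with h | h <;> rcases hw with h' | h' <;> rw [h, h']
    · exact ⟨4, by norm_num, by norm_num⟩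
    · exact ⟨2, by norm_num, by norm_num⟩
    · exact ⟨2, by norm_num, by norm_num⟩
    · exact ⟨4, by norm_num, by norm_num⟩
  obtain ⟨j, hj⟩ := hn
  -- the power
  have hpow : ∀ (m : ℕ) (x y : ℤ), (m : ℤ) ∣ x - s * y → (m : ℤ) ∣ (-1) ^ a * x ^ (k + a + 0) - y ^ (k + a) := by
    intro m x y h
    have h1 : (m : ℤ) ∣ x ^ (k + a) - (s * y) ^ (k + a) := h.trans (sub_dvd_pow_sub_pow _ _ _)
    have h2 : (-1) ^ a * x ^ (k + a + 0) - y ^ (k + a) = s * (x ^ (k + a) - (s * y) ^ (k + a)) := by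
      have h3 : s ^ (k + a) = s := by
        rw [hj, pow_succ, pow_mul, sq, hss, one_pow, one_mul]
      rw [ha2, add_zero, mul_pow, h3]
      linear_combination (y ^ (k + a)) * hss
    rw [h2]
    exact Dvd.dvd.mul_left h1 s
  refine ⟨c, e, a, 0, ⟨hq, hcq, he, Even.zero, by omega⟩, fun D hD => ?_⟩
  obtain ⟨hA, hS, hk', ha', hb'⟩ := hD
  refine ⟨?_, ?_, fun l hl hlq => ?_⟩
  · have h1 := (sign_eq hA ha').2
    have h2 : s * D = (D.natAbs : ℤ) := by
      rw [ha2] at h1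
      calc s * D = s * (s * (D.natAbs : ℤ)) := by rw [← h1]
        _ = (D.natAbs : ℤ) := by rw [← mul_assoc, hss, one_mul]
    rw [h2]
    exact_mod_cast Int.natAbs_pos.2 hA.1.ne_zero
  · have h1 : ((9 : ℕ) : ℤ) ∣ D - (-1) ^ a * (e : ℤ) ^ (k + a + 0) := by
      refine residue hA (fun p hp hpd => ?_) hk' ha' hb'
      rw [(hS p hp hpd).2]
      rcases he with h | h | h | h <;> rw [h]
    have h2 : ((3 : ℕ) : ℤ) ∣ D - w ^ (k + a) := by
      have h3 : ((3 : ℕ) : ℤ) ∣ D - (-1) ^ a * (e : ℤ) ^ (k + a + 0) :=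
        (show ((3 : ℕ) : ℤ) ∣ ((9 : ℕ) : ℤ) by norm_num).trans h1
      have h4 := dvd_add h3 (hpow 3 e w (by exact_mod_cast hes))
      rwa [sub_add_sub_cancel] at h4
    have hw3 : ¬ ((3 : ℕ) : ℤ) ∣ w := by rcases hw with h | h <;> rw [h] <;> norm_num
    have hp3 : Prime ((3 : ℕ) : ℤ) := Nat.prime_iff_prime_int.1 Nat.prime_three
    exact same_mod Nat.prime_three (by norm_num) (dvd_refl 3)
      (fun h => hw3 (hp3.dvd_of_dvd_pow h)) h2 (x := w ^ (j + 1)) (by rw [hj]; ring) hw3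
  · have hl2 : l ≠ 2 := by
      rintro rfl
      have := Nat.Coprime.coprime_dvd_left hlq hq
      norm_num at this
    have hp := Nat.prime_iff_prime_int.1 hl
    have hul : ¬ (l : ℤ) ∣ u := by
      intro h
      have h1 := hu.isUnit_of_dvd' h (Int.natCast_dvd_natCast.2 hlq)
      exact hp.not_isUnit h1
    have h1 : (q : ℤ) ∣ D - (-1) ^ a * (c : ℤ) ^ (k + a + 0) :=
      residue hA (fun p hp hpd => (hS p hp hpd).1) hk' ha' hb'
    have h2 : (q : ℤ) ∣ D - u ^ (k + a) := by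
      have h4 := dvd_add h1 (hpow q c u hc)
      rwa [sub_add_sub_cancel] at h4
    exact same_mod hl hl2 hlq (fun h => hul (hp.dvd_of_dvd_pow h)) h2 (x := u ^ (j + 1))
      (by rw [hj]; ring) hul

/-- **Main theorem.**
(1) Let `q` be prime to `42`, `c` prime to `q`, `e` one of `2`, `4`, `5`, `7`, `b` even, `a + b ≥ 1`.  All the
`D` of the family have the same sign and are in the same class modulo squares in `ℚ_l` for `l = 2`, `7`,
`3` and for the primes `l` which divide `q`.  The number of the `D` of the family with `|D| ≤ X` is between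
two positive constants times `X (log log X)^(k + a + b - 1) / log X`, and the proportion of the `D` with
the property `AllLayers` among them tends to `∏_{i < (k + 1) / 2} (1 - 2^{-(2 i + 1)})`.
(2) For all integers `u` prime to `q`, all signs `s` and `w`, and all `k` (odd if `s = 1` and even if
`s = -1`) there are `c`, `e`, `a`, `b` such that the `D` of the family have the sign `s`, the class of `w` in
`ℚ_3` and the class of `u` in `ℚ_l` for the primes `l` which divide `q`. -/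
theorem result :
    (∀ q c e k a b : ℕ, Data q c e a b →
      (∀ D : ℤ, Family (Classes q c e) k a b D →
        (0 < D ↔ Even a) ∧ SameAt 2 D (5 ^ a) ∧ SameAt 7 D 1 ∧
        SameAt 3 D ((-1) ^ a * (e : ℤ) ^ (k + a + b)) ∧
        ∀ l : ℕ, l.Prime → l ∣ q → SameAt l D ((-1) ^ a * (c : ℤ) ^ (k + a + b))) ∧
      Law (Classes q c e) k a b) ∧
    ∀ q : ℕ, Nat.Coprime q 42 → ∀ u s w : ℤ, IsCoprime u (q : ℤ) → (s = 1 ∨ s = -1) →
      (w = 1 ∨ w = -1) → ∀ k : ℕ, (Odd k ↔ s = 1) →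
        ∃ c e a b : ℕ, Data q c e a b ∧ ∀ D : ℤ, Family (Classes q c e) k a b D →
          0 < s * D ∧ SameAt 3 D w ∧ ∀ l : ℕ, l.Prime → l ∣ q → SameAt l D u :=
  ⟨fun _ _ _ k a b hd => ⟨fun _ hD => components hd hD,
      Pool.Agent.Results.MP_6dc9d1_nt.FixedNumberAllLayers.result.2.1 _ k a b hd.2.2.2.1 hd.2.2.2.2
        (rich hd.1 hd.2.1 hd.2.2.1 k a b)⟩,
    fun _ hq _ _ _ hu hs hw _ hk => prescribe hq hu hs hw hk⟩

end Pool.Agent.Results.MP_50bb2e_nt.AllLayersLocalConditions
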