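import Mathlib
import Pool.Agent.Results.MP_0b9e0b_ag.MultiquadraticProducts
import Pool.Agent.V11161.BH.ParH
import Pool.Agent.V11161.BH.Pad

/-!
# Central order zero for quadratic twists with prescribed local components, by all the products over
# clusters of primes

`E_M` is the quadratic twist by `M` of the modular curve `X_0(14)`, an elliptic curve without complex
multiplication with one rational point of order two. The class `Adm` consists of the squarefree
integers, positive or negative, `1` modulo `4`, squares modulo `7`, whose prime divisors split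
completely in `ℚ(i, √2, √-7)` or are inert in `ℚ(√2)` and in `ℚ(√-7)`, and are inert in the cyclotomic
`ℤ₃`-extension of `ℚ`. Let `T` and `S₀` be ANY finite subsets of the class, `S₀` independent modulo
squares, `F = ℚ(√d : d ∈ S₀)`, and let `π_M`, `M ∈ T`, be the automorphic representation of `GL₂(𝔸_F)` of
the curve `E_M` over `F`. The twist of `π_M` by the character `χ_D` of `F(√D)/F` belongs to the curve
`E_{M D}` over `F`. Let `q` be any number prime to `42`; the prime divisors of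
`P = 504 q ∏_{M ∈ T} |M| ∏_{d ∈ S₀} |d|` are the places at which we prescribe the components of `χ_D`.

Let `c` be prime to `P`, `3` modulo `8`, a nonsquare modulo `7`, not `± 1` modulo `9`, and a square
modulo the prime divisors `l = 1` modulo `8` of the elements of `T` and `S₀`; there are such `c`. For all
`k` and `η > 0` there are `z`, `d`, `C`, `X₀` and `ρ, b > 0`, which depend only on `k` and `η`, such that
for all `T`, `S₀`, `q`, all `c` and every `X ≥ X₀` there are frequencies `θ_1, …, θ_d` with the following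
property. Let `B` be the Bohr set of all integers `|h| ≤ X` with `|exp (2 π i h θ_j) - 1| ≤ ρ` for all
`j`; it has at least `b X` elements. Put `W = P z!`. For at least `(1 - η) |B| ^ k` of the vectors
`(h_1, …, h_k)` in `B ^ k` (the entries being distinct and not zero) and for arbitrarily large `N`, the
same for all these vectors, there are at least `N / (log N) ^ C` primes `p ≤ N` such that `p_0 = p` and
the `p_i = p + W h_i` are primes congruent to `c` modulo `P`, the set `S₀ ∪ S`, `S = {- p_0, …, - p_k}`, is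
a subset of the class with `#S₀ + k + 1` elements, independent modulo squares, and for all `U ⊆ S` and
`D = ∏_{d ∈ U} d`:

* `D` has the sign `(-1)^#U`, and for all the primes `l` dividing `P` (also `l = 2, 3, 7`) the number `D` is
  in the class of `(-c)^#U` in `ℚ_l` modulo squares: the components of `χ_D` at infinity and above `P` are
  prescribed, and trivial if `#U` is even;
* if the criterion for `S₀` is satisfied for all the elements of `T` (rank zero and `Ш[2] = 0` for the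
  squarefree parts of the products of `M ∈ T` and elements of `S₀`, over the layers of the
  `ℤ₃`-extension), then for all `M ∈ T` the central order of `π_M ⊗ χ_D` is zero: the `L`-function of
  `E_{M D}` over `F` is entire and does not vanish at `s = 1`; the rank of `E_{M D}(F)` is zero, and
  `2^#S₀` kills the 2-primary part of `Ш(E_{M D}/F)`. The same holds over all the subfields
  `ℚ(√d : d ∈ V)`, `V ⊆ S₀ ∪ S`, of `F(√-p_0, …, √-p_k)`.

That the criterion implies the nonvanishing is from `MultiquadraticProducts` (MP_0b9e0b_ag, starting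
library). New here: the matrices over `𝔽₂` of the products with the `- p_i` do not change
(`Pool.Agent.V11161.BH.det_mul_DD`), and the configurations of the primes
(`Pool.Agent.V11161.BH.bohrAPU`, uniform in the modulus).
-/

set_option autoImplicit false

open Filter NumberField IsDedekindDomain

namespace Pool.Agent.Results.MP_50bb2e_nt.PrescribedComponents

open Pool.Agent.TH841.NF.D (Sha)

open Pool.Agent.Results.MP_787500_nt.LayersBlochKatoLaw (Adm Small base factor rank twist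
  multiquadratic)

open Pool.Agent.Results.MP_0b9e0b_ag.MultiquadraticProducts (IsBase IsFamily Criterion
  factorX dimension BeilinsonBloch Holds)

open Classical in
/-- `L` is entire and is, for `Re s > 3/2`, the `L`-function of `E_M` over `k` without the Euler factors at
the places that divide `42 M N` (these do not change the order at `s = 1`) -/
def IsL (k : Type) [Field k] [NumberField k] (M N : ℤ) (L : ℂ → ℂ) : Prop :=
  Differentiable ℂ L ∧ ∀ s : ℂ, 3 / 2 < s.re →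
    HasProd (fun v : HeightOneSpectrum (𝓞 k) =>
      if ((42 * M * N : ℤ) : 𝓞 k) ∈ v.asIdeal then 1 else factor (K := k) (twist M) s v) (L s)

/-- Over `k = ℚ(√d : d ∈ S)`, of degree `2^#S`, the rank of `E_M` is zero, the `L`-function is entire and
not zero at `s = 1`, and the 2-primary part of `Ш(E_M/k)` is killed by `2^#S`. -/
def OrderZero (S : Finset ℤ) (M : ℤ) : Prop :=
  ∀ (k : IntermediateField ℚ ℂ) [NumberField k], k = multiquadratic S →
    Module.finrank ℚ k = 2 ^ S.card ∧ rank k (twist M) = 0 ∧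
    (∃ L : ℂ → ℂ, IsL k M (∏ d ∈ S, d) L ∧ analyticOrderAt L 1 = 0) ∧
    ∀ (j : ℕ) (y : Sha (base (twist M) k)), 2 ^ j • y = 0 → 2 ^ S.card • y = 0

/-- the integers `D` and `D'` differ by a nonzero square in the field `ℚ_l`: the local components at `l` of
the quadratic characters of `ℚ(√D)` and of `ℚ(√D')` are equal, and so are those of `K(√D)` and of
`K(√D')` at the places above `l` for any number field `K` -/
def SameAt (l : ℕ) (D D' : ℤ) : Prop :=
  ∃ hl : l.Prime, ∃ z : @Padic l ⟨hl⟩, z ≠ 0 ∧ (D : @Padic l ⟨hl⟩) * (D' : @Padic l ⟨hl⟩) = z ^ 2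

/-- the modulus `P = 504 q ∏_{M ∈ T} |M| ∏_{d ∈ S₀} |d|` -/
def modulus (T S₀ : Finset ℤ) (q : ℕ) : ℕ :=
  504 * (((∏ M ∈ T, M.natAbs) * ∏ d ∈ S₀, d.natAbs) * q)

/-- `c` is prime to `P`, `3` modulo `8`, a nonsquare modulo `7`, inert in the cyclotomic `ℤ₃`-extension
(`2`, `4`, `5`, `7` modulo `9`), and a square modulo the prime divisors `1` modulo `8` of the elements of
`T` and `S₀` -/
def Residue (T S₀ : Finset ℤ) (q c : ℕ) : Prop :=
  c.Coprime (modulus T S₀ q) ∧ c % 8 = 3 ∧ (c % 7 = 3 ∨ c % 7 = 5 ∨ c % 7 = 6) ∧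
    (c % 9 = 2 ∨ c % 9 = 4 ∨ c % 9 = 5 ∨ c % 9 = 7) ∧
    ∀ M ∈ T ∪ S₀, ∀ l : ℕ, l.Prime → (l : ℤ) ∣ M → l % 8 = 1 → IsSquare (c : ZMod l)

/-- `x* = ± x`, congruent to `1` modulo `4` for odd `x` -/
def star (x : ℤ) : ℤ := if x % 4 = 1 then x else -x

/-- the numbers `p, p + W h_1, …, p + W h_k` -/
def members {k : ℕ} (W : ℕ) (h : Fin k → ℤ) (p : ℕ) : Fin (k + 1) → ℤ :=
  Fin.cons (p : ℤ) fun i => (p : ℤ) + W * h i

/-- the set of the `x*`, `x` running through the members of the cluster -/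
noncomputable def stars {k : ℕ} (W : ℕ) (h : Fin k → ℤ) (p : ℕ) : Finset ℤ :=
  (Finset.univ : Finset (Fin (k + 1))).image fun i => star (members W h p i)

/-- the statement on `T`, `S₀`, the modulus, the class `c` and the set `S` of the cluster -/
def Statement (T S₀ : Finset ℤ) (q c : ℕ) (S : Finset ℤ) : Prop :=
  ∀ U ⊆ S, 0 < (-1) ^ U.card * ∏ d ∈ U, d ∧
    (∀ l : ℕ, l.Prime → l ∣ modulus T S₀ q → SameAt l (∏ d ∈ U, d) ((-(c : ℤ)) ^ U.card)) ∧
    ∀ M ∈ T, Adm (M * ∏ d ∈ U, d) ∧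
      ((∀ M₀ ∈ T, Criterion {1} S₀ M₀) → ∀ V ⊆ S₀ ∪ S, OrderZero V (M * ∏ d ∈ U, d))

/-- the primes `p ≤ N` of the class of `c` for which all the `p + W h_i` are primes of the class, the set
`S` of the cluster adds `k + 1` elements to `S₀`, `S₀ ∪ S` is a subset of the class `Adm`, independent
modulo squares, and the statement holds -/
def goodPrimes {k : ℕ} (T S₀ : Finset ℤ) (q c W : ℕ) (h : Fin k → ℤ) (N : ℕ) : Set ℕ :=
  {p : ℕ | p ≤ N ∧ p.Prime ∧ p % modulus T S₀ q = c % modulus T S₀ q ∧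
    (∀ i, ∃ r : ℕ, r.Prime ∧ r % modulus T S₀ q = c % modulus T S₀ q ∧ (r : ℤ) = p + W * h i) ∧
    (S₀ ∪ stars W h p).card = S₀.card + (k + 1) ∧ IsBase (S₀ ∪ stars W h p) ∧
    Statement T S₀ q c (stars W h p)}

/-- the Bohr set of the frequencies `θ_j`, of radius `ρ` and width `X` -/
def bohrSet {d : ℕ} (θ : Fin d → ℝ) (ρ : ℝ) (X : ℕ) : Set ℤ :=
  {h : ℤ | |h| ≤ X ∧ ∀ j, ‖Complex.exp (2 * Real.pi * Complex.I * (h * θ j)) - 1‖ ≤ ρ}

lemma isL_of {k : Type} [Field k] [NumberField k] {M N : ℤ} {L : ℂ → ℂ} (h : Differentiable ℂ L)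
    (h2 : ∀ s : ℂ, 3 / 2 < s.re → HasProd (factorX k {M} N s) (L s)) : IsL k M N L := by
  classical
  refine ⟨h, fun s hs => ?_⟩
  have h5 := h2 s hs
  have e : factorX k {M} N s = fun v : HeightOneSpectrum (𝓞 k) =>
      if ((42 * M * N : ℤ) : 𝓞 k) ∈ v.asIdeal then 1 else factor (K := k) (twist M) s v := by
    funext v
    unfold factorX
    rw [Finset.prod_singleton]
  rw [e] at h5
  exact h5

lemma single {S : Finset ℤ} (hS : IsBase S) {M : ℤ} (hM : Adm M) (hc : Criterion {1} S M) :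
    OrderZero S M := by
  have hB1 : IsFamily {1} S := ⟨fun x hx => by
      rw [Finset.mem_singleton.1 hx]
      exact Pool.Agent.V11161.BH.adm_one, fun x hx y hy hne => absurd ((Finset.mem_singleton.1 hx).trans
      (Finset.mem_singleton.1 hy).symm) hne⟩
  obtain ⟨T, h1, h2, h3⟩ :=
    Pool.Agent.Results.MP_0b9e0b_ag.MultiquadraticProducts.result.1 S {1} hS hB1 M hM
  have h4 : Holds S T := h3 hc
  have hMT : M ∈ T := (h1 M).2 ⟨hM, 1, Finset.mem_singleton_self 1, 1, by ring⟩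
  have hT : T = {M} := by
    rw [Finset.card_singleton] at h2
    obtain ⟨x, hx⟩ := Finset.card_eq_one.1 h2
    rw [hx] at hMT ⊢
    rw [Finset.mem_singleton.1 hMT]
  subst hT
  intro k _ hk
  obtain ⟨g1, ⟨L, g2, g3, g4⟩, g5, g6⟩ := h4 k hk
  have hdim : dimension k {M} = rank k (twist M) := by
    unfold dimension
    rw [Finset.sum_singleton]
  exact ⟨g1, hdim.symm.trans g5, ⟨L, isL_of g2 g3, by rw [g4, g5]; rfl⟩,
    g6 M (Finset.mem_singleton_self M)⟩

lemma good_of {T S₀ : Finset ℤ} (hT : ∀ M ∈ T, Adm M) (h : ∀ M₀ ∈ T, Criterion {1} S₀ M₀) :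
    Pool.Agent.Results.MP_009fd8_ag.LayersProducts.Good T S₀ := by
  refine ⟨hT, fun M hM U hU D z hD hz => ?_⟩
  refine h M hM 1 (Finset.mem_singleton_self 1) U hU D z hD ?_
  rw [one_mul]
  exact hz

lemma sameAt_odd {l : ℕ} (hl : l.Prime) (h2 : l ≠ 2) {D D' x : ℤ} (hx : ¬ (l : ℤ) ∣ x)
    (h : (l : ℤ) ∣ D * D' - x ^ 2) : SameAt l D D' := by
  have := Fact.mk hl
  obtain ⟨z, hz, h1⟩ := Pool.Agent.V11161.BH.odd_sq (l := l) h2 hx h
  refine ⟨hl, z, hz, ?_⟩
  rw [← h1]
  push_cast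
  rfl

lemma sameAt_two {D D' : ℤ} (h : (8 : ℤ) ∣ D * D' - 1) : SameAt 2 D D' := by
  have := Fact.mk Nat.prime_two
  obtain ⟨z, hz, h1⟩ := Pool.Agent.V11161.BH.two_sq h
  refine ⟨Nat.prime_two, z, hz, ?_⟩
  rw [← h1]
  push_cast
  rfl

lemma star_mod {x : ℤ} {P c : ℕ} (h8 : (8 : ℕ) ∣ P) (hc : c % 8 = 3) (h0 : 0 < x)
    (h : (P : ℤ) ∣ x - c) : star x < 0 ∧ (P : ℤ) ∣ star x - (-(c : ℤ)) := by
  have h1 : (8 : ℤ) ∣ x - c := (by exact_mod_cast h8 : ((8 : ℕ) : ℤ) ∣ (P : ℤ)).trans h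
  have h2 : x % 4 ≠ 1 := by omega
  unfold star
  rw [if_neg h2]
  refine ⟨by omega, ?_⟩
  have e : -x - (-(c : ℤ)) = -(x - c) := by ring
  rw [e]
  exact (dvd_neg).2 h

lemma prod_class {U : Finset ℤ} {P : ℕ} {a : ℤ} (h : ∀ d ∈ U, d < 0 ∧ (P : ℤ) ∣ d - a) :
    0 < (-1) ^ U.card * ∏ d ∈ U, d ∧ (P : ℤ) ∣ (∏ d ∈ U, d) - a ^ U.card := by
  induction U using Finset.induction_on with
  | empty => simp
  | insert x U hx ih =>
    obtain ⟨i1, i2⟩ := ih fun d hd => h d (Finset.mem_insert_of_mem hd)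
    obtain ⟨h1, h2⟩ := h x (Finset.mem_insert_self x U)
    rw [Finset.prod_insert hx, Finset.card_insert_of_notMem hx]
    constructor
    · have e : (-1 : ℤ) ^ (U.card + 1) * (x * ∏ d ∈ U, d) = (-x) * ((-1) ^ U.card * ∏ d ∈ U, d) := by
        ring
      rw [e]
      exact mul_pos (by omega) i1
    · have e : x * ∏ d ∈ U, d - a ^ (U.card + 1) =
          (x - a) * ∏ d ∈ U, d + a * (∏ d ∈ U, d - a ^ U.card) := by ring
      rw [e]
      exact dvd_add (Dvd.dvd.mul_right h2 _) (Dvd.dvd.mul_left i2 _)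

lemma same_of {P c n : ℕ} {D : ℤ} (h8 : 8 ∣ P) (hcop : c.Coprime P)
    (h : (P : ℤ) ∣ D - (-(c : ℤ)) ^ n) {l : ℕ} (hl : l.Prime) (hlP : l ∣ P) :
    SameAt l D ((-(c : ℤ)) ^ n) := by
  have hcl : ¬ l ∣ c := fun h1 => by
    have := Nat.dvd_gcd h1 hlP
    rw [hcop] at this
    exact hl.one_lt.ne' (Nat.dvd_one.1 this)
  by_cases h2 : l = 2
  · subst h2
    refine sameAt_two ?_
    have hodd : Odd (c : ℤ) := by
      rw [Int.odd_iff]
      have : ¬ 2 ∣ c := hcl
      omega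
    have h9 : (8 : ℤ) ∣ ((-(c : ℤ)) ^ n) ^ 2 - 1 := by
      have h10 : Odd ((-(c : ℤ)) ^ n) := (hodd.neg).pow
      obtain ⟨y, hy⟩ := h10
      rw [hy]
      have h11 : (2 : ℤ) ∣ y * (y + 1) := (Int.even_mul_succ_self y).two_dvd
      obtain ⟨w, hw⟩ := h11
      exact ⟨w, by linear_combination 4 * hw⟩
    have h12 : (8 : ℤ) ∣ D - (-(c : ℤ)) ^ n :=
      (by exact_mod_cast h8 : ((8 : ℕ) : ℤ) ∣ (P : ℤ)).trans h
    have e : D * (-(c : ℤ)) ^ n - 1 =
        (D - (-(c : ℤ)) ^ n) * (-(c : ℤ)) ^ n + (((-(c : ℤ)) ^ n) ^ 2 - 1) := by ring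
    rw [e]
    exact dvd_add (Dvd.dvd.mul_right h12 _) h9
  · refine sameAt_odd hl h2 (x := (-(c : ℤ)) ^ n) (fun h4 => ?_) ?_
    · have h5 := (Nat.prime_iff_prime_int.1 hl).dvd_of_dvd_pow h4
      rw [dvd_neg] at h5
      exact hcl (Int.natCast_dvd_natCast.1 h5)
    · have h12 : (l : ℤ) ∣ D - (-(c : ℤ)) ^ n := (Int.natCast_dvd_natCast.2 hlP).trans h
      have e : D * (-(c : ℤ)) ^ n - ((-(c : ℤ)) ^ n) ^ 2 =
          (D - (-(c : ℤ)) ^ n) * (-(c : ℤ)) ^ n := by ring
      rw [e]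
      exact Dvd.dvd.mul_right h12 _

open Pool.Agent.V11161.BH in
theorem classPrimes_sub {k : ℕ} {T S₀ : Finset ℤ} (hT : ∀ M ∈ T, Adm M) (hS₀ : IsBase S₀)
    {q c W : ℕ} (hc : Residue T S₀ q c) {h : Fin k → ℤ} (hh0 : ∀ i, h i ≠ 0)
    (hinj : Function.Injective h) (hW : 0 < W) (N : ℕ) :
    classPrimes (modulus T S₀ q) c W h N ⊆ goodPrimes T S₀ q c W h N := by
  intro p hp
  obtain ⟨c1, c2, c3, c4, c5⟩ := hc
  obtain ⟨g1, g2, g3, -⟩ := cluster_base hT hS₀ (P := modulus T S₀ q)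
    (Nat.mul_dvd_mul_left 504 (Dvd.intro _ rfl)) c1 c2 c3 c4 c5 hh0 hinj hW hp
  have h8 : (8 : ℕ) ∣ modulus T S₀ q := (by norm_num : (8 : ℕ) ∣ 504).trans (Dvd.intro _ rfl)
  have hcls : ∀ r : ℕ, r % modulus T S₀ q = c % modulus T S₀ q →
      (modulus T S₀ q : ℤ) ∣ (r : ℤ) - c := by
    intro r hr
    have e1 : c ≡ r [MOD modulus T S₀ q] := hr.symm
    exact (Nat.modEq_iff_dvd).1 e1
  have hall : ∀ d ∈ stars W h p, d < 0 ∧ (modulus T S₀ q : ℤ) ∣ d - (-(c : ℤ)) := by
    intro d hd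
    obtain ⟨i, -, rfl⟩ := Finset.mem_image.1 hd
    refine Fin.cases ?_ (fun j => ?_) i
    · show star (p : ℤ) < 0 ∧ (modulus T S₀ q : ℤ) ∣ star (p : ℤ) - (-(c : ℤ))
      exact star_mod h8 c2 (by exact_mod_cast hp.2.1.pos) (hcls p hp.2.2.1)
    · obtain ⟨r, r1, r2, r3⟩ := hp.2.2.2 j
      show star ((p : ℤ) + W * h j) < 0 ∧
        (modulus T S₀ q : ℤ) ∣ star ((p : ℤ) + W * h j) - (-(c : ℤ))
      rw [← r3]
      exact star_mod h8 c2 (by exact_mod_cast r1.pos) (hcls r r2)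
  refine ⟨hp.1, hp.2.1, hp.2.2.1, hp.2.2.2, g1, g2, fun U hU => ?_⟩
  obtain ⟨k1, k2⟩ := prod_class (U := U) fun d hd => hall d (hU hd)
  refine ⟨k1, fun l hl hlP => same_of h8 c1 k2 hl hlP, fun M hM => ?_⟩
  obtain ⟨a1, a2⟩ := g3 U hU M hM
  refine ⟨a1, fun hcr V hV => ?_⟩
  have hbV : IsBase V := ⟨fun d hd => g2.1 d (hV hd), fun V' hV' hne => g2.2 V' (hV'.trans hV) hne⟩
  refine single hbV a1 ?_
  intro b hb V' hV' D z hD hz
  rw [Finset.mem_singleton.1 hb, one_mul] at hz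
  exact a2 (good_of hT hcr) V' (hV'.trans hV) D z hD hz

lemma exists_residue {T S₀ : Finset ℤ} {q : ℕ} (hT : ∀ M ∈ T, Adm M) (hS₀ : ∀ d ∈ S₀, Adm d)
    (hq : Nat.Coprime q 42) : ∃ c, Residue T S₀ q c := by
  have hcop1 : ∀ M : ℤ, Adm M → Nat.Coprime 504 M.natAbs := by
    intro M hM
    refine Nat.Coprime.symm (Nat.coprime_of_dvd fun p hp hpM hp5 => ?_)
    obtain ⟨h1, h9⟩ := hM.2.2.2 p hp (Int.natCast_dvd.2 hpM)
    have h5 : p ∣ 2 ^ 3 * (3 ^ 2 * 7) := by norm_num; exact hp5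
    have h6 : p = 2 ∨ p = 3 ∨ p = 7 := by
      rcases (Nat.Prime.dvd_mul hp).1 h5 with h | h
      · exact Or.inl ((Nat.prime_dvd_prime_iff_eq hp Nat.prime_two).1 (hp.dvd_of_dvd_pow h))
      · rcases (Nat.Prime.dvd_mul hp).1 h with h | h
        · exact Or.inr (Or.inl ((Nat.prime_dvd_prime_iff_eq hp Nat.prime_three).1
            (hp.dvd_of_dvd_pow h)))
        · exact Or.inr (Or.inr ((Nat.prime_dvd_prime_iff_eq hp (by norm_num)).1 h))
    rcases h6 with rfl | rfl | rfl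
    · rcases h1 with h1 | h1
      · have := h1.2.1
        omega
      · rcases h1.2.1 with h | h <;> omega
    · omega
    · rcases h1 with h1 | h1
      · rcases h1.2.2 with h | h | h <;> omega
      · rcases h1.2.2 with h | h | h <;> omega
  set Q : ℕ := ((∏ M ∈ T, M.natAbs) * ∏ d ∈ S₀, d.natAbs) * q with hQ
  have hq5 : Nat.Coprime 504 q := Nat.Coprime.coprime_dvd_left (by norm_num : 504 ∣ 42 ^ 3)
    (Nat.Coprime.pow_left 3 hq.symm)
  have hcop : Nat.Coprime 504 Q := Nat.Coprime.mul_right (Nat.Coprime.mul_right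
    (Nat.Coprime.prod_right fun M hM => hcop1 M (hT M hM))
    (Nat.Coprime.prod_right fun M hM => hcop1 M (hS₀ M hM))) hq5
  obtain ⟨c, hc1, hc2⟩ := Nat.chineseRemainder hcop 227 1
  have e8 : c % 8 = 3 := hc1.of_dvd (by norm_num : (8 : ℕ) ∣ 504)
  have e7 : c % 7 = 3 := hc1.of_dvd (by norm_num : (7 : ℕ) ∣ 504)
  have e9 : c % 9 = 2 := hc1.of_dvd (by norm_num : (9 : ℕ) ∣ 504)
  refine ⟨c, ?_, e8, Or.inl e7, Or.inl e9, fun M hM l hl hlM _ => ?_⟩
  · refine Nat.Coprime.mul_right ?_ ?_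
    · rw [Nat.coprime_iff_gcd_eq_one, hc1.gcd_eq]
      decide
    · rw [Nat.coprime_iff_gcd_eq_one, hc2.gcd_eq]
      exact Nat.gcd_one_left _
  · have h1 : l ∣ Q := by
      rcases Finset.mem_union.1 hM with h | h
      · exact (((Int.natCast_dvd.1 hlM).trans (Finset.dvd_prod_of_mem _ h)).trans
          (Dvd.intro _ rfl)).trans (Dvd.intro _ rfl)
      · exact (((Int.natCast_dvd.1 hlM).trans (Finset.dvd_prod_of_mem _ h)).trans
          (Dvd.intro_left _ rfl)).trans (Dvd.intro _ rfl)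
    have h2 : (c : ZMod l) = ((1 : ℕ) : ZMod l) :=
      (ZMod.natCast_eq_natCast_iff _ _ _).2 (hc2.of_dvd h1)
    rw [h2, Nat.cast_one]
    exact ⟨1, (one_mul 1).symm⟩

/-- **Main theorem.** For all finite subsets `T`, `S₀` of the class, `S₀` independent modulo squares, and
all `q` prime to `42` there are classes `c` with `Residue T S₀ q c`, and for all of them and for almost all
the configurations in Bohr sets there are many clusters of primes such that for all the products `D` of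
elements of `S = {- p_0, …, - p_k}` the sign and the classes of `D` in the fields `ℚ_l`, `l ∣ P`, are
prescribed, and, if the criterion for `S₀` is satisfied for all the elements of `T`, the twist by `χ_D` of
the representation of `E_M`, `M ∈ T`, over `F = ℚ(√d : d ∈ S₀)` has central order zero. -/
theorem result (k : ℕ) (η : ℝ) (hη : 0 < η) :
    ∃ (z d C X₀ : ℕ) (ρ b : ℝ), 0 < ρ ∧ 0 < b ∧
      ∀ T S₀ : Finset ℤ, (∀ M ∈ T, Adm M) → IsBase S₀ → ∀ q : ℕ, Nat.Coprime q 42 →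
        (∃ c, Residue T S₀ q c) ∧ ∀ c : ℕ, Residue T S₀ q c → ∀ X : ℕ, X₀ ≤ X →
        ∃ (θ : Fin d → ℝ) (H : Finset (Fin k → ℤ)),
          b * X ≤ ((bohrSet θ ρ X).ncard : ℝ) ∧
          (∀ h ∈ H, (∀ i, h i ∈ bohrSet θ ρ X ∧ h i ≠ 0) ∧ Function.Injective h) ∧
          (1 - η) * ((bohrSet θ ρ X).ncard : ℝ) ^ k ≤ (H.card : ℝ) ∧
          ∃ᶠ N : ℕ in atTop, ∀ h ∈ H, (N : ℝ) / (Real.log N) ^ C ≤
            ((goodPrimes T S₀ q c (modulus T S₀ q * z.factorial) h N).ncard : ℝ) := by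
  obtain ⟨z, d, C, X₀, ρ, b, hρ, hb, hS⟩ := Pool.Agent.V11161.BH.bohrAPU k η hη
  refine ⟨z, d, C, X₀, ρ, b, hρ, hb, fun T S₀ hT hS₀ q hq =>
    ⟨exists_residue hT hS₀.1 hq, fun c hc X hX => ?_⟩⟩
  have hq0 : 0 < q := Nat.pos_of_ne_zero fun h0 => by
    rw [h0] at hq
    norm_num at hq
  have hP0 : 0 < modulus T S₀ q := Nat.mul_pos (by norm_num) (Nat.mul_pos (Nat.mul_pos
    (Finset.prod_pos fun M hM => Int.natAbs_pos.2 (hT M hM).1.ne_zero)
    (Finset.prod_pos fun M hM => Int.natAbs_pos.2 (hS₀.1 M hM).1.ne_zero)) hq0)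
  obtain ⟨θ, H, h1, h2, h3, h4⟩ := hS (modulus T S₀ q) hP0 c hc.1 X hX
  refine ⟨θ, H, h1, h2, h3, h4.mono fun N hN h hh => (hN h hh).trans ?_⟩
  rw [Nat.cast_le]
  refine Set.ncard_le_ncard (classPrimes_sub hT hS₀ hc (fun i => ((h2 h hh).1 i).2)
    (h2 h hh).2 (Nat.mul_pos hP0 z.factorial_pos) N) ((Set.finite_Iic N).subset fun p hp => hp.1)

end Pool.Agent.Results.MP_50bb2e_nt.PrescribedComponents
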