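import Pool.Agent.Results.MP_50bb2e_nt.BaseChangeTwists
import Pool.Agent.Results.MP_03e5d0_nt.SimultaneousTwists
import Pool.Agent.V1110.SpB

/-!
# Central order zero for the twists over multiquadratic fields by the terms of sparse sequences

`E^M : y² = x³ + 5805 M² x - 285714 M³` is the twist by `M` of the non-CM curve `X_0(14)`. Let
`K = ℚ(√d_1, …, √d_n)` be of degree `2ⁿ`, where `M` and the `d_i` are, up to squares, in the class
`Adm` of the squarefree `D = 1 mod 4` of any sign which are squares modulo `7`, prime to `3`, and all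
prime factors of which split completely in `ℚ(i, √2, √-7)` or are inert in `ℚ(√2)` and in `ℚ(√-7)`.
Let `π` be the automorphic representation of `GL₂(𝔸_K)` of `E^M` over `K`. The hand-in `BaseChangeTwists` of
this problem shows that for at least the proportion `c ^ 2ⁿ`, `c = ∏_{i ≥ 0} (1 - 2^{-(2i+1)}) = 0.4194...`,
of the `D` in the class of a given sign the twist of `π` by the quadratic character of `K(√D)/K` has
central order `0`.

Here `D` runs through the elements of the class in the sequence `s ⌊α n ^ p⌋` (`s = ± 1`), where `p > 1`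
is any real number: a sparse sequence (about `X^{1/p}` integers up to `X`). The theorem: there is one
set `A₀` of real numbers of Hausdorff dimension smaller than one such that for all real `α > 0` outside
`A₀`, both signs and ALL fields `K` and numbers `M`, a sufficient condition for central order zero (all
the `2ⁿ` twists of `E` that make up the twist of `π` have rank zero and `Ш[2] = 0`) is true for a
proportion of exactly `c ^ 2ⁿ` of these `D`.
-/

set_option autoImplicit false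

open Filter Topology NumberField IsDedekindDomain

namespace Pool.Agent.Results.MP_50bb2e_nt.SparseSequences

open Pool.Agent.Results.MP_50bb2e_nt.BaseChangeTwists

open Pool.Agent.Results.MP_03e5d0_nt.SimultaneousTwists (RankZeroShaTwo)

/-- the number of the `1 ≤ n ≤ N` such that `D = s ⌊α n ^ p⌋` has the property `Q` -/
noncomputable def along (α p : ℝ) (s : ℤ) (Q : ℤ → Prop) (N : ℕ) : ℕ :=
  Nat.card {n : ℕ // (1 ≤ n ∧ n ≤ N) ∧ Q (s * ⌊α * (n : ℝ) ^ p⌋₊)}

/-- `D` is in the class, and for all the squarefree parts `D'` of the products of `M D` and of some of the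
`d_i` the group `E^{D'}(ℚ)` is finite and `Ш(E^{D'}/ℚ)` has no element of order two -/
def Crit {n : ℕ} (d : Fin n → ℤ) (M D : ℤ) : Prop :=
  Adm D ∧ ∀ (T : Finset (Fin n)) (D' k : ℤ), Adm D' → M * D * ∏ i ∈ T, d i = D' * k ^ 2 →
    RankZeroShaTwo D'

/-- a squarefree number is determined up to the sign of the cofactor by its square class -/
lemma sqf_unique {D D' k k' : ℤ} (hD : Squarefree D) (hD' : Squarefree D') (hk : k ≠ 0)
    (hk' : k' ≠ 0) (h : D * k ^ 2 = D' * k' ^ 2) : D = D' := by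
  -- divide by the greatest common divisor of `k` and `k'`
  obtain ⟨g, a, b, hg, ha, hb, hab⟩ : ∃ g a b : ℤ, g ≠ 0 ∧ k = g * a ∧ k' = g * b ∧
      IsCoprime a b := by
    obtain ⟨a, ha⟩ : (Int.gcd k k' : ℤ) ∣ k := Int.gcd_dvd_left ..
    obtain ⟨b, hb⟩ : (Int.gcd k k' : ℤ) ∣ k' := Int.gcd_dvd_right ..
    have hg : (Int.gcd k k' : ℤ) ≠ 0 := by
      intro h0
      rw [h0, zero_mul] at ha
      exact hk ha
    refine ⟨(Int.gcd k k' : ℤ), a, b, hg, ha, hb, ?_⟩
    have h1 : (Int.gcd k k' : ℤ) = k * Int.gcdA k k' + k' * Int.gcdB k k' := Int.gcd_eq_gcd_ab k k'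
    refine ⟨Int.gcdA k k', Int.gcdB k k', ?_⟩
    refine mul_left_cancel₀ hg ?_
    calc (Int.gcd k k' : ℤ) * (Int.gcdA k k' * a + Int.gcdB k k' * b)
        = ((Int.gcd k k' : ℤ) * a) * Int.gcdA k k' + ((Int.gcd k k' : ℤ) * b) * Int.gcdB k k' := by
          ring
      _ = k * Int.gcdA k k' + k' * Int.gcdB k k' := by rw [← ha, ← hb]
      _ = (Int.gcd k k' : ℤ) := h1.symm
      _ = (Int.gcd k k' : ℤ) * 1 := (mul_one _).symm
  have h2 : D * a ^ 2 = D' * b ^ 2 := by
    refine mul_left_cancel₀ (pow_ne_zero 2 hg) ?_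
    calc g ^ 2 * (D * a ^ 2) = D * (g * a) ^ 2 := by ring
      _ = D' * (g * b) ^ 2 := by rw [← ha, ← hb, h]
      _ = g ^ 2 * (D' * b ^ 2) := by ring
  have h3 : IsUnit b := by
    refine hD b ?_
    have h4 : b * b ∣ D * (a * a) := ⟨D', by linarith [h2, pow_two a, pow_two b]⟩
    exact (IsCoprime.mul_left (IsCoprime.mul_right hab.symm hab.symm)
      (IsCoprime.mul_right hab.symm hab.symm)).dvd_of_dvd_mul_right h4
  have h5 : IsUnit a := by
    refine hD' a ?_
    have h4 : a * a ∣ D' * (b * b) := ⟨D, by linarith [h2, pow_two a, pow_two b]⟩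
    exact (IsCoprime.mul_left (IsCoprime.mul_right hab hab)
      (IsCoprime.mul_right hab hab)).dvd_of_dvd_mul_right h4
  have h6 : a ^ 2 = 1 := by
    rcases Int.isUnit_iff.1 h5 with rfl | rfl <;> norm_num
  have h7 : b ^ 2 = 1 := by
    rcases Int.isUnit_iff.1 h3 with rfl | rfl <;> norm_num
  rw [h6, h7, mul_one, mul_one] at h2
  exact h2

lemma rz_iff' {D : ℤ} (hD : Adm D) : RankZeroShaTwo D ↔ (Y687.MQ.matD D).det ≠ 0 := by
  have hR : RankZeroShaTwo D ↔ Y17.X.RZ D := by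
    unfold RankZeroShaTwo Y17.X.RZ
    refine and_congr Iff.rfl (forall_congr' fun x => ?_)
    rw [two_nsmul]
    rfl
  rw [hR]
  exact Y17.X.rz_iff hD

lemma adS_mul {M D : ℤ} (hM : AdmSq M) (hD : Adm D) : Y687.JQ.AdS (M * D) := by
  obtain ⟨D₀, k₀, h1, h2, h3⟩ := hM
  obtain ⟨h4, k, h5, h6⟩ :=
    Pool.Agent.Results.MP_03e5d0_nt.SimultaneousTwists.result.1 D₀ D h1 hD
  refine ⟨_, k * k₀, h4, mul_ne_zero h5 h2, ?_⟩
  rw [h3]
  calc D₀ * k₀ ^ 2 * D = (D₀ * D) * k₀ ^ 2 := by ring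
    _ = _ := by rw [h6]; ring

lemma crit_iff {n : ℕ} {d : Fin n → ℤ} {M : ℤ} (hM : AdmSq M) (hd : ∀ i, AdmSq (d i))
    (hind : ∀ T : Finset (Fin n), T.Nonempty → ¬ IsSquare (∏ i ∈ T, d i)) (D : ℤ) :
    Crit d M D ↔ Y687.MQ.AdmD D ∧ Y687.JQ.GO d (M * D) := by
  unfold Crit
  refine and_congr_right fun hD => ?_
  have hMD := adS_mul hM hD
  constructor
  · intro h T
    obtain ⟨U, -, hU⟩ := Y687.JQ.exists_U' hind hd hMD
    obtain ⟨hC, k, hk, e⟩ := hU T
    exact ⟨_, k, ⟨hC.adm, (rz_iff' hC.adm).1 (h T _ k hC.adm e)⟩, hk, e⟩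
  · intro h T D' k hD' e
    obtain ⟨D'', k'', ⟨h1, h2⟩, hk'', e''⟩ := h T
    have hk : k ≠ 0 := by
      rintro rfl
      rw [e] at e''
      have h3 : D'' * k'' ^ 2 = 0 := by
        rw [← e'']
        ring
      rcases mul_eq_zero.1 h3 with h4 | h4
      · exact h1.1.ne_zero h4
      · exact hk'' (pow_eq_zero_iff (two_ne_zero)|>.1 h4)
    have h3 : D' = D'' := sqf_unique hD'.1 h1.1 hk hk'' (e.symm.trans e'')
    rw [h3]
    exact (rz_iff' h1).2 h2

/-- from the criterion to the `L`-function over the field -/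
lemma order_zero {n : ℕ} {d : Fin n → ℤ}
    (hind : ∀ T : Finset (Fin n), T.Nonempty → ¬ IsSquare (∏ i ∈ T, d i))
    (K : Type) [Field K] [NumberField K] (hK : IsMultiquadratic d K) :
    ∀ N : ℤ, Y687.JQ.GO d N → OrderZero K N (∏ i, d i) := by
  classical
  obtain ⟨x, hx, hK⟩ := hK
  have hGO : ∀ N : ℤ, Y687.JQ.GO d N → OrderZero K N (∏ i, d i) := by
    intro N hN
    have h : Y687.MQ.AdT Y687.MQ.ClG N d := by
      intro T
      obtain ⟨D, k, h1, hk, he⟩ := hN T
      obtain ⟨P, T', h2, rfl⟩ := (Y687.MQ.good_iff).1 h1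
      exact ⟨P, T', k, h2, hk, he⟩
    obtain ⟨⟨F, hF, hF1⟩, -⟩ := Y687.MQ.field_thm (fun P T => Y687.MQ.WB_all) h hind K x hx hK
    have hL : ∀ G : ℂ → ℂ, IsL K N (∏ i, d i) G ↔
        Y19.QT.IsLFunK K (A N) (B N) (∏ i, d i) G := by
      intro G
      have key : ∀ v : HeightOneSpectrum (𝓞 K),
          (((42 * N * ∏ i, d i : ℤ) : 𝓞 K) ∈ v.asIdeal ↔
            ((2 * (4 * A N ^ 3 + 27 * B N ^ 2) * ∏ i, d i : ℤ) : 𝓞 K) ∈ v.asIdeal) := by
        intro v
        have := v.isPrime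
        constructor
        · intro h1
          have e : ((2 * (4 * A N ^ 3 + 27 * B N ^ 2) * ∏ i, d i : ℤ) : 𝓞 K) =
              ((2 ^ 14 * 3 ^ 11 * 7 ^ 2 * N ^ 5 : ℤ) : 𝓞 K) *
                ((42 * N * ∏ i, d i : ℤ) : 𝓞 K) := by
            rw [← Int.cast_mul]
            congr 1
            unfold A B
            ring
          rw [e]
          exact Ideal.mul_mem_left _ _ h1
        · intro h1
          refine Ideal.IsPrime.mem_of_pow_mem this 15 ?_
          have e : ((42 * N * ∏ i, d i : ℤ) : 𝓞 K) ^ 15 =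
              ((3 ^ 3 * 7 ^ 12 * N ^ 9 * (∏ i, d i) ^ 14 : ℤ) : 𝓞 K) *
                ((2 * (4 * A N ^ 3 + 27 * B N ^ 2) * ∏ i, d i : ℤ) : 𝓞 K) := by
            rw [← Int.cast_mul, ← Int.cast_pow]
            congr 1
            unfold A B
            ring
          rw [e]
          exact Ideal.mul_mem_left _ _ h1
      unfold IsL Y19.QT.IsLFunK
      simp only [key]
      rfl
    refine ⟨⟨F, (hL F).2 hF⟩, fun G hG => ?_⟩
    rw [Y687.MQ.isLFunK_unique ((hL G).1 hG) hF]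
    exact hF1
  exact hGO

/-- **Main theorem.** Let `p > 1` be a real number and `c = ∏_{i ≥ 0} (1 - 2^{-(2 i + 1)}) = 0.419…`.
(1) Let `M` and `d_1, …, d_n` be, up to squares, in the class, the `d_i` independent modulo squares, and
`K = ℚ(√d_1, …, √d_n)`. If `Crit d M D` then the `L`-function of `E^{M D}` over `K`, that is of the twist of
the representation `π` of `E^M` over `K` by the quadratic character of `K(√D)/K`, is entire and not zero at
the centre.
(2) There is a set `A₀` of real numbers of Hausdorff dimension smaller than one such that for all real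
`α > 0` not in `A₀` and for `s = 1` and `s = -1`: at least `b N (log N)^(-5/8)` of the `n ≤ N` are such that
`D = s ⌊α n ^ p⌋` is in the class, and for all `M`, `d_1, …, d_n` as in (1) the proportion of those with
`Crit d M D` among these is exactly `c ^ 2ⁿ`. -/
theorem result (p : ℝ) (hp : 1 < p) :
    (∀ (n : ℕ) (M : ℤ) (d : Fin n → ℤ), AdmSq M → (∀ i, AdmSq (d i)) →
      (∀ T : Finset (Fin n), T.Nonempty → ¬ IsSquare (∏ i ∈ T, d i)) →
      ∀ D : ℤ, Crit d M D → ∀ (K : Type) [Field K] [NumberField K], IsMultiquadratic d K →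
        OrderZero K (M * D) (∏ i, d i)) ∧
    ∃ c : ℝ, 0.4194 < c ∧ c < 0.4195 ∧
      Tendsto (fun n : ℕ => ∏ i ∈ Finset.range n, (1 - (1 / 2 : ℝ) ^ (2 * i + 1))) atTop (𝓝 c) ∧
    ∃ A₀ : Set ℝ, dimH A₀ < 1 ∧ ∀ α : ℝ, 0 < α → α ∉ A₀ → ∀ s : ℤ, (s = 1 ∨ s = -1) →
      (∃ b : ℝ, 0 < b ∧ ∃ N₀ : ℕ, ∀ N : ℕ, N₀ ≤ N →
        b * N * (Real.log N) ^ (-(5 / 8) : ℝ) ≤ (along α p s Adm N : ℝ)) ∧
      ∀ (n : ℕ) (M : ℤ) (d : Fin n → ℤ), AdmSq M → (∀ i, AdmSq (d i)) →
        (∀ T : Finset (Fin n), T.Nonempty → ¬ IsSquare (∏ i ∈ T, d i)) →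
        Tendsto (fun N : ℕ => (along α p s (Crit d M) N : ℝ) / along α p s Adm N) atTop
          (𝓝 (c ^ 2 ^ n)) := by
  classical
  refine ⟨fun n M d hM hd hind D hD K _ _ hK =>
    order_zero hind K hK _ ((crit_iff hM hd hind D).1 hD).2, ?_⟩
  obtain ⟨hC, -, -, hc1, hc2⟩ := Y948.CQ.t_C2
  refine ⟨Y703.CQ.c2, hc1, hc2, ?_, ?_⟩
  · rw [tendsto_iff_norm_sub_tendsto_zero]
    refine squeeze_zero (fun n => norm_nonneg _) (fun n => ?_)
      (tendsto_pow_atTop_nhds_zero_of_lt_one (by norm_num : (0 : ℝ) ≤ 1 / 4)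
        (by norm_num : (1 / 4 : ℝ) < 1))
    rw [Real.norm_eq_abs]
    exact hC n
  obtain ⟨A₀, hA₀, h⟩ := Pool.Agent.V1110.SpA.ratio_nat p hp
    (ι := (Σ n : ℕ, Fin n → ℤ) × ℤ × ℤ)
    (fun v t => Y687.MQ.AdmD (v.2.2 * t) ∧ Y687.JQ.GO v.1.2 (v.2.1 * (v.2.2 * t)))
    (fun v t => Y687.MQ.AdmD (v.2.2 * t))
  refine ⟨A₀, hA₀, fun α hα hαA s hs => ?_⟩
  have hcard : ∀ (Q : ℕ → Prop) (X : ℕ), Nat.card {t : ℕ // (1 ≤ t ∧ t ≤ X) ∧ Q t} =
      ((Finset.Icc 1 X).filter fun t : ℕ => Q t).card := by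
    intro Q X
    refine Nat.subtype_card _ fun t => ?_
    rw [Finset.mem_filter, Finset.mem_Icc]
  obtain ⟨a, X₀, ha, hX₀⟩ := Y17.X.low hs
  have hQ : ∃ X0 : ℕ, ∀ X : ℕ, X0 ≤ X → a * X * (Real.log X) ^ (-(5 / 8) : ℝ) ≤
      (Nat.card {t : ℕ // (1 ≤ t ∧ t ≤ X) ∧ Y687.MQ.AdmD (s * t)} : ℝ) := by
    refine ⟨X₀, fun X hX => (hX₀ X hX).trans (le_of_eq ?_)⟩
    rw [hcard]
    have e := Y17.X.count_nat hs X
    have e2 : Y17.X.count (fun D => Y687.MQ.AdmD D ∧ 0 < s * D) X =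
        Nat.card {D : ℤ // |D| ≤ X ∧ Y687.MQ.AdmD D ∧ 0 < s * D ∧ True} := by
      unfold Y17.X.count
      simp only [and_true]
    rw [e2, e]
  have key : ∀ (n : ℕ) (M : ℤ) (d : Fin n → ℤ), AdmSq M → (∀ i, AdmSq (d i)) →
      (∀ T : Finset (Fin n), T.Nonempty → ¬ IsSquare (∏ i ∈ T, d i)) →
      Tendsto (fun N : ℕ => (along α p s (Crit d M) N : ℝ) / along α p s Adm N) atTop
          (𝓝 (Y703.CQ.c2 ^ 2 ^ n)) ∧
        ∃ b : ℝ, 0 < b ∧ ∃ N0 : ℕ, ∀ N : ℕ, N0 ≤ N →
          b * N * (Real.log N) ^ (-(5 / 8) : ℝ) ≤ (along α p s Adm N : ℝ) := by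
    intro n M d hM hd hind
    have h1 := h α hα hαA (⟨n, d⟩, M, s) _ a (5 / 8) ha (by norm_num) hQ (by
      refine (Y687.JQ.prop_field Y687.JQ.t_JDEN hind hd hM hs).congr fun X => ?_
      rw [hcard, hcard]
      congr 3
      ext t
      simp only [Finset.mem_filter])
    have e : ∀ N : ℕ, along α p s (Crit d M) N = Pool.Agent.V1110.SpA.along α p
        (fun t => Y687.MQ.AdmD (s * t) ∧ Y687.JQ.GO d (M * (s * t))) N := by
      intro N
      unfold along Pool.Agent.V1110.SpA.along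
      refine Nat.card_congr (Equiv.subtypeEquivRight fun m => and_congr_right fun _ => ?_)
      exact crit_iff hM hd hind _
    refine ⟨?_, h1.2⟩
    simp only [e]
    exact h1.1
  have hone : AdmSq 1 := by
    refine ⟨1, 1, ⟨squarefree_one, by norm_num, Or.inl (by norm_num), fun q hq hq1 => ?_⟩,
      one_ne_zero, by norm_num⟩
    exfalso
    have h3 : (q : ℤ) ∣ ((1 : ℕ) : ℤ) := hq1
    exact hq.one_lt.ne' (Nat.dvd_one.1 (Int.natCast_dvd_natCast.1 h3))
  refine ⟨(key 0 1 (fun i => i.elim0) hone (fun i => i.elim0) fun T hT => ?_).2,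
    fun n M d hM hd hind => (key n M d hM hd hind).1⟩
  obtain ⟨i, -⟩ := hT
  exact i.elim0

end Pool.Agent.Results.MP_50bb2e_nt.SparseSequences
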